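import Mathlib

/-!
# The constant `c₂` is `1/4`

`τ(G)` is the least number of trees whose edge sets partition `E(G)` and `τ'(G)` the least number
of induced trees whose vertex sets partition `V(G)`.  For every `n ≥ 3` the maximum of
`τ'(G) / (τ(G) n)` over the connected graphs `G` with `n` vertices is `⌈n/2⌉ / (2 n)`; hence the
limit superior (even the limit) of these maxima is `1/4`.

The maximum is attained by triangles that share one vertex (plus a pendant edge at this vertex if
`n` is even): here `τ = 2` and `τ' = ⌈n/2⌉`.  For the upper bound, `τ(G) = 1` only if `G` is a tree,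
and `τ'(G) ≤ ⌈n/2⌉` for every connected graph (M. and T. Foregger); this is proved below: a
connected graph with at least two vertices contains an induced edge or an induced star, with at
least two vertices, whose removal leaves a connected graph (or nothing).
-/

set_option autoImplicit false

namespace Pool.Agent.Results.MP_8bd6c4_co.QuarterConstant

open SimpleGraph

/-- The edge set of `G` is the disjoint union of the edge sets of `k` subgraphs of `G`, each of
which is a tree. -/
def TreeDecomposition {V : Type} (G : SimpleGraph V) (k : ℕ) : Prop :=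
  ∃ H : Fin k → G.Subgraph, (∀ i, (H i).coe.IsTree) ∧
    (∀ i j, i ≠ j → Disjoint (H i).edgeSet (H j).edgeSet) ∧ (⋃ i, (H i).edgeSet) = G.edgeSet

/-- The vertex set of `G` is partitioned into `k` sets each of which induces a tree in `G`. -/
def TreePartition {V : Type} (G : SimpleGraph V) (k : ℕ) : Prop :=
  ∃ c : V → Fin k, ∀ i, (G.induce {v | c v = i}).IsTree

/-- `τ(G)` -/
noncomputable def tau {V : Type} (G : SimpleGraph V) : ℕ := sInf {k | TreeDecomposition G k}

/-- `τ'(G)` -/
noncomputable def tau' {V : Type} (G : SimpleGraph V) : ℕ := sInf {k | TreePartition G k}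

/-- the values `τ'(G) / (τ(G) n)` of the connected graphs `G` with `n` vertices and at least one
edge -/
def ratios (n : ℕ) : Set ℝ :=
  {x | ∃ G : SimpleGraph (Fin n), G.Connected ∧ G ≠ ⊥ ∧ x = (tau' G : ℝ) / ((tau G : ℝ) * n)}

/-! ### Trees given by parent functions -/

theorem tree_of_parent {V : Type} [Finite V] (G : SimpleGraph V) (r : V) (p : V → V) (rk : V → ℕ)
    (h1 : ∀ v, v ≠ r → rk (p v) < rk v)
    (h2 : ∀ u v, G.Adj u v ↔ (u ≠ r ∧ p u = v) ∨ (v ≠ r ∧ p v = u)) : G.IsTree := by
  classical
  have hr : ∀ (m : ℕ) (v : V), rk v = m → G.Reachable v r := by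
    intro m
    induction m using Nat.strong_induction_on with
    | _ m ih =>
      intro v hv
      by_cases hvr : v = r
      · subst hvr; exact Reachable.refl _
      · have hadj : G.Adj v (p v) := (h2 _ _).2 (Or.inl ⟨hvr, rfl⟩)
        exact hadj.reachable.trans (ih _ (hv ▸ h1 v hvr) _ rfl)
  have : Nonempty V := ⟨r⟩
  have hc : G.Connected := Connected.mk fun u v => (hr _ u rfl).trans (hr _ v rfl).symm
  rw [isTree_iff_connected_and_card]
  refine ⟨hc, le_antisymm ?_ hc.card_vert_le_card_edgeSet_add_one⟩
  have h3 : G.edgeSet ⊆ (fun v => s(v, p v)) '' {v | v ≠ r} := by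
    intro e he
    induction e using Sym2.ind with
    | _ u v =>
      rw [mem_edgeSet, h2] at he
      rcases he with ⟨h, rfl⟩ | ⟨h, rfl⟩
      · exact ⟨u, h, rfl⟩
      · exact ⟨v, h, Sym2.eq_swap⟩
  have h4 : G.edgeSet.ncard ≤ ({r}ᶜ : Set V).ncard :=
    (Set.ncard_le_ncard h3 (Set.toFinite _)).trans (Set.ncard_image_le (Set.toFinite _))
  have h5 : ({r} : Set V).ncard + ({r}ᶜ : Set V).ncard = Nat.card V := Set.ncard_add_ncard_compl _
  rw [Set.ncard_singleton] at h5
  have h6 : Nat.card G.edgeSet = G.edgeSet.ncard := rfl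
  omega

theorem subgraph_tree {V : Type} [Finite V] {G : SimpleGraph V} (H : G.Subgraph) (r : V)
    (hr : r ∈ H.verts) (p : V → V) (rk : V → ℕ)
    (hp : ∀ v ∈ H.verts, v ≠ r → p v ∈ H.verts ∧ rk (p v) < rk v)
    (hadj : ∀ u v, u ∈ H.verts → v ∈ H.verts → (H.Adj u v ↔ (u ≠ r ∧ p u = v) ∨ (v ≠ r ∧ p v = u))) :
    H.coe.IsTree := by
  classical
  refine tree_of_parent H.coe ⟨r, hr⟩
    (fun v => if h : v.1 = r then v else ⟨p v.1, (hp v.1 v.2 h).1⟩) (fun v => rk v.1) ?_ ?_
  · rintro ⟨v, hv⟩ hvr
    have h : v ≠ r := fun h => hvr (Subtype.ext h)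
    simp only [dif_neg h]
    exact (hp v hv h).2
  · rintro ⟨u, hu⟩ ⟨v, hv⟩
    rw [Subgraph.coe_adj, hadj u v hu hv]
    constructor
    · rintro (⟨h, h'⟩ | ⟨h, h'⟩)
      · left
        refine ⟨fun h2 => h (Subtype.ext_iff.1 h2), ?_⟩
        simp only [dif_neg h]
        exact Subtype.ext h'
      · right
        refine ⟨fun h2 => h (Subtype.ext_iff.1 h2), ?_⟩
        simp only [dif_neg h]
        exact Subtype.ext h'
    · rintro (⟨h, h'⟩ | ⟨h, h'⟩)
      · left
        have h2 : u ≠ r := fun h2 => h (Subtype.ext h2)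
        simp only [dif_neg h2] at h'
        exact ⟨h2, Subtype.ext_iff.1 h'⟩
      · right
        have h2 : v ≠ r := fun h2 => h (Subtype.ext h2)
        simp only [dif_neg h2] at h'
        exact ⟨h2, Subtype.ext_iff.1 h'⟩

theorem no_triangle {V : Type} {G : SimpleGraph V} (hG : G.IsAcyclic) {a b c : V}
    (h1 : G.Adj a b) (h2 : G.Adj b c) (h3 : G.Adj a c) : False := by
  let p : G.Path a c := ⟨Walk.cons h3 Walk.nil, by simp [Walk.cons_isPath_iff, h3.ne]⟩
  let q : G.Path a c := ⟨Walk.cons h1 (Walk.cons h2 Walk.nil), by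
    simp [Walk.cons_isPath_iff, h1.ne, h2.ne, h3.ne]⟩
  have h := (hG.subsingleton_path a c).elim p q
  have h4 : p.1.length = q.1.length := by rw [h]
  simp [p, q] at h4

/-! ### The upper bound for `τ'` -/

/-- an induced edge or star whose removal leaves a connected graph or nothing -/
theorem exists_piece {V : Type} [Fintype V] (G : SimpleGraph V) (hG : G.Connected)
    (hV : 2 ≤ Fintype.card V) :
    ∃ T : Set V, 2 ≤ T.ncard ∧ (G.induce T).IsTree ∧ (Tᶜ = ∅ ∨ (G.induce Tᶜ).Connected) := by
  classical
  obtain ⟨r⟩ := hG.nonempty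
  have hpar : ∀ v, ∃ u, v ≠ r → G.Adj u v ∧ G.dist r v = G.dist r u + 1 := by
    intro v
    by_cases hv : v = r
    · exact ⟨v, fun h => absurd hv h⟩
    · obtain ⟨w, hw⟩ := hG.exists_walk_length_eq_dist v r
      cases w with
      | nil => exact absurd rfl hv
      | @cons _ u _ h w' =>
        refine ⟨u, fun _ => ⟨h.symm, ?_⟩⟩
        rw [Walk.length_cons] at hw
        have h1 : G.dist u r ≤ w'.length := dist_le w'
        have h2 : G.dist v r ≤ G.dist v u + G.dist u r := hG.dist_triangle
        have h3 : G.dist v u = 1 := dist_eq_one_iff_adj.2 h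
        rw [dist_comm (u := r) (v := v), dist_comm (u := r) (v := u)]
        omega
  choose par hp using hpar
  obtain ⟨x, -, hx⟩ := Finset.exists_max_image Finset.univ (fun v => G.dist r v) ⟨r, Finset.mem_univ _⟩
  have hxmax : ∀ v, G.dist r v ≤ G.dist r x := fun v => hx v (Finset.mem_univ _)
  have hxr : x ≠ r := by
    rintro rfl
    obtain ⟨a, b, hab⟩ := Fintype.one_lt_card_iff.1 (show 1 < Fintype.card V by omega)
    have h1 := hxmax a
    have h2 := hxmax b
    rw [dist_self] at h1 h2
    have h3 := (hG.dist_eq_zero_iff (u := x) (v := a)).1 (by omega)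
    have h4 := (hG.dist_eq_zero_iff (u := x) (v := b)).1 (by omega)
    exact hab (h3.symm.trans h4)
  -- closed sets are connected
  have hclosed : ∀ R : Set V, r ∈ R → (∀ w ∈ R, w ≠ r → par w ∈ R) → (G.induce R).Connected := by
    intro R hr hcl
    have key : ∀ (m : ℕ) (w : V) (hw : w ∈ R), G.dist r w = m →
        (G.induce R).Reachable ⟨w, hw⟩ ⟨r, hr⟩ := by
      intro m
      induction m using Nat.strong_induction_on with
      | _ m ih =>
        intro w hw hm
        by_cases hwr : w = r
        · subst hwr; exact Reachable.refl _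
        · have h1 := hp w hwr
          have hadj : (G.induce R).Adj ⟨w, hw⟩ ⟨par w, hcl w hw hwr⟩ := h1.1.symm
          exact hadj.reachable.trans (ih _ (by omega) (par w) _ rfl)
    have : Nonempty R := ⟨⟨r, hr⟩⟩
    exact Connected.mk fun u v => (key _ u.1 u.2 rfl).trans (key _ v.1 v.2 rfl).symm
  set q := par x with hq
  set C : Set V := {v | v ≠ r ∧ par v = q} with hC
  have hxC : x ∈ C := ⟨hxr, rfl⟩
  have hCd : ∀ v ∈ C, G.dist r v = G.dist r x := by
    intro v hv
    have h1 := (hp v hv.1).2
    have h2 := (hp x hxr).2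
    rw [hv.2] at h1
    rw [h1, h2]
  have hCadj : ∀ v ∈ C, G.Adj q v := by
    intro v hv
    have := (hp v hv.1).1
    rwa [hv.2] at this
  have hnochild : ∀ v ∈ C, ∀ w, w ≠ r → par w ≠ v := by
    intro v hv w hw h
    have h1 := (hp w hw).2
    rw [h, hCd v hv] at h1
    have := hxmax w
    omega
  have hqC : q ∉ C := fun h => (hCadj q h).ne rfl
  by_cases hcase : ∃ u ∈ C, ∃ v ∈ C, G.Adj u v
  · obtain ⟨u, hu, v, hv, huv⟩ := hcase
    refine ⟨{u, v}, ?_, ?_, Or.inr ?_⟩
    · rw [Set.ncard_pair huv.ne]
    · refine tree_of_parent (G.induce {u, v}) ⟨u, by simp⟩ (fun _ => ⟨u, by simp⟩)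
        (fun w => if w.1 = u then 0 else 1) ?_ ?_
      · rintro ⟨w, hw⟩ hwu
        have : w ≠ u := fun h => hwu (Subtype.ext h)
        simp [this]
      · rintro ⟨a, ha⟩ ⟨b, hb⟩
        rw [induce_adj]
        simp only [Set.mem_insert_iff, Set.mem_singleton_iff] at ha hb
        simp only [ne_eq, Subtype.mk.injEq]
        rcases ha with rfl | rfl <;> rcases hb with rfl | rfl
        · simp
        · simp [huv, huv.ne.symm]
        · simp [huv.symm, huv.ne.symm]
        · simp [huv.ne]
    · apply hclosed
      · rintro (h | h)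
        · exact hu.1 h.symm
        · exact hv.1 h.symm
      · intro w hw hwr
        rintro (h | h)
        · exact hnochild u hu w hwr h
        · exact hnochild v hv w hwr h
  · push Not at hcase
    refine ⟨insert q C, ?_, ?_, ?_⟩
    · have h1 : ({q, x} : Set V).ncard = 2 := Set.ncard_pair (fun h => hqC (h ▸ hxC))
      rw [← h1]
      refine Set.ncard_le_ncard ?_ (Set.toFinite _)
      rintro y (rfl | rfl)
      · exact Set.mem_insert _ _
      · exact Set.mem_insert_of_mem _ hxC
    · refine tree_of_parent (G.induce (insert q C)) ⟨q, Set.mem_insert _ _⟩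
        (fun _ => ⟨q, Set.mem_insert _ _⟩) (fun w => if w.1 = q then 0 else 1) ?_ ?_
      · rintro ⟨w, hw⟩ hwu
        have : w ≠ q := fun h => hwu (Subtype.ext h)
        simp [this]
      · rintro ⟨a, ha⟩ ⟨b, hb⟩
        rw [induce_adj]
        simp only [ne_eq, Subtype.mk.injEq]
        rcases ha with rfl | ha <;> rcases hb with rfl | hb
        · simp
        · have h1 := hCadj b hb
          simp only [h1, not_true_eq_false, false_and, false_or, and_true, true_iff]
          exact h1.ne.symm
        · have h1 := hCadj a ha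
          simp only [h1.symm, not_true_eq_false, false_and, or_false, and_true, true_iff]
          exact h1.ne.symm
        · have h1 : q ≠ a := fun h => hqC (h ▸ ha)
          have h2 : q ≠ b := fun h => hqC (h ▸ hb)
          simp [h1, h2, hcase a ha b hb]
    · by_cases hqr : q = r
      · left
        rw [Set.compl_empty_iff, Set.eq_univ_iff_forall]
        intro v
        by_cases hv : v = r
        · left; rw [hv, hqr]
        · right
          refine ⟨hv, ?_⟩
          have h1 := (hp v hv).2
          have h2 := (hp x hxr).2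
          have h3 := hxmax v
          rw [← hq, hqr, dist_self] at h2
          have h4 : G.dist r (par v) = 0 := by omega
          rw [hG.dist_eq_zero_iff] at h4
          rw [hqr, h4]
      · right
        apply hclosed
        · rintro (h | h)
          · exact hqr h.symm
          · exact h.1 rfl
        · intro w hw hwr
          rintro (h | h)
          · exact hw (Or.inr ⟨hwr, h⟩)
          · exact hnochild _ h w hwr rfl

theorem partition_bound (n : ℕ) : ∀ (V : Type) [Fintype V] (G : SimpleGraph V),
    Fintype.card V = n → G.Connected → ∃ k ≤ (n + 1) / 2, TreePartition G k := by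
  classical
  induction n using Nat.strong_induction_on with
  | _ n ih =>
    intro V _ G hn hG
    have hpos : 0 < Fintype.card V := Fintype.card_pos_iff.2 hG.nonempty
    rcases Nat.lt_or_ge (Fintype.card V) 2 with h | h
    · have h1 : Fintype.card V = 1 := by omega
      have : Subsingleton V := Fintype.card_le_one_iff_subsingleton.1 (by omega)
      refine ⟨1, by omega, fun _ => 0, fun i => ?_⟩
      obtain ⟨v⟩ := hG.nonempty
      have : Nonempty {w : V | (0 : Fin 1) = i} := ⟨⟨v, Subsingleton.elim _ _⟩⟩
      exact IsTree.of_subsingleton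
    · obtain ⟨T, hT, hTtree, hrest⟩ := exists_piece G hG h
      have hcardT : T.ncard + Tᶜ.ncard = n := by
        rw [Set.ncard_add_ncard_compl, Nat.card_eq_fintype_card, hn]
      rcases hrest with h0 | hconn
      · refine ⟨1, by omega, fun _ => 0, fun i => ?_⟩
        have h1 : {v : V | (0 : Fin 1) = i} = T := by
          rw [Set.compl_empty_iff] at h0
          rw [h0, Set.eq_univ_iff_forall]
          intro v
          exact Subsingleton.elim _ _
        rw [h1]
        exact hTtree
      · obtain ⟨k, hk, c, hc⟩ := ih Tᶜ.ncard (by omega) (Tᶜ : Set V) (G.induce Tᶜ)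
          (by rw [← Nat.card_eq_fintype_card]; rfl) hconn
        refine ⟨k + 1, by omega, fun v => if h : v ∈ Tᶜ then (c ⟨v, h⟩).castSucc else Fin.last k,
          fun i => ?_⟩
        refine Fin.lastCases ?_ (fun j => ?_) i
        · have h1 : {v : V | (if h : v ∈ Tᶜ then (c ⟨v, h⟩).castSucc else Fin.last k) =
              Fin.last k} = T := by
            ext v
            simp only [Set.mem_ofPred_eq]
            by_cases hv : v ∈ Tᶜ
            · rw [dif_pos hv]
              constructor
              · intro h2
                exact absurd h2 (Fin.castSucc_lt_last _).ne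
              · intro h2
                exact absurd h2 hv
            · rw [dif_neg hv]
              simpa using hv
          rw [h1]
          exact hTtree
        · let e : (G.induce Tᶜ).induce {w | c w = j} ≃g
              G.induce {v : V | (if h : v ∈ Tᶜ then (c ⟨v, h⟩).castSucc else Fin.last k) =
                j.castSucc} :=
            { toFun := fun w => ⟨w.1.1, by
                show (if h : w.1.1 ∈ Tᶜ then (c ⟨w.1.1, h⟩).castSucc else Fin.last k) = _
                rw [dif_pos w.1.2]
                exact congrArg Fin.castSucc w.2⟩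
              invFun := fun v => ⟨⟨v.1, by
                by_contra h2
                have h3 := v.2
                simp only [Set.mem_ofPred_eq] at h3
                rw [dif_neg h2] at h3
                exact absurd h3.symm (Fin.castSucc_lt_last _).ne⟩, by
                have h3 := v.2
                simp only [Set.mem_ofPred_eq] at h3
                split_ifs at h3 with h4
                · exact Fin.castSucc_injective _ h3
                · exact absurd h3.symm (Fin.castSucc_lt_last _).ne⟩
              left_inv := fun w => rfl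
              right_inv := fun v => rfl
              map_rel_iff' := Iff.rfl }
          exact e.isTree_iff.1 (hc j)

/-! ### `τ` and `τ'` -/

theorem exists_treeDecomposition {V : Type} [Finite V] (G : SimpleGraph V) :
    ∃ k, TreeDecomposition G k := by
  classical
  have : Fintype G.edgeSet := Fintype.ofFinite _
  let e := (Fintype.equivFin G.edgeSet).symm
  have hex : ∀ d : G.edgeSet, ∃ H : G.Subgraph, H.coe.IsTree ∧ H.edgeSet = {d.1} := by
    rintro ⟨d, hd⟩
    induction d using Sym2.ind with
    | _ u v =>
      exact ⟨G.subgraphOfAdj hd, IsTree.coe_subgraphOfAdj hd, edgeSet_subgraphOfAdj hd⟩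
  choose H hH1 hH2 using hex
  refine ⟨Fintype.card G.edgeSet, fun i => H (e i), fun i => hH1 _, ?_, ?_⟩
  · intro i j hij
    rw [hH2, hH2, Set.disjoint_singleton]
    intro h
    exact hij (e.injective (Subtype.ext h))
  · ext d
    rw [Set.mem_iUnion]
    constructor
    · rintro ⟨i, hi⟩
      rw [hH2, Set.mem_singleton_iff] at hi
      rw [hi]
      exact (e i).2
    · intro hd
      refine ⟨e.symm ⟨d, hd⟩, ?_⟩
      rw [hH2, e.apply_symm_apply]
      rfl

theorem tau_spec {V : Type} [Finite V] (G : SimpleGraph V) : TreeDecomposition G (tau G) :=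
  Nat.sInf_mem (exists_treeDecomposition G)

theorem tau_ne_zero {V : Type} [Finite V] (G : SimpleGraph V) (hG : G ≠ ⊥) : tau G ≠ 0 := by
  intro h
  have h1 := tau_spec G
  rw [h] at h1
  obtain ⟨H, -, -, h2⟩ := h1
  rw [Set.iUnion_of_empty] at h2
  exact hG (edgeSet_eq_empty.1 h2.symm)

theorem isTree_of_tau_eq_one {V : Type} [Finite V] (G : SimpleGraph V) (hG : G.Connected)
    (hG' : G ≠ ⊥) (h : tau G = 1) : G.IsTree := by
  have h1 := tau_spec G
  rw [h] at h1
  obtain ⟨H, h2, -, h3⟩ := h1
  have h4 : (H 0).edgeSet = G.edgeSet := by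
    rw [← h3]
    ext d
    rw [Set.mem_iUnion]
    constructor
    · exact fun h => ⟨0, h⟩
    · rintro ⟨i, hi⟩
      rwa [Subsingleton.elim i 0] at hi
  have hadj : ∀ u v, G.Adj u v ↔ (H 0).Adj u v := by
    intro u v
    rw [← mem_edgeSet, ← h4, Subgraph.mem_edgeSet]
  have hnt : Nontrivial V := by
    by_contra hcon
    rw [not_nontrivial_iff_subsingleton] at hcon
    exact hG' (Subsingleton.elim _ _)
  have hv : ∀ v, v ∈ (H 0).verts := by
    intro v
    obtain ⟨u, hu⟩ := hG.preconnected.exists_adj_of_nontrivial v
    exact ((hadj v u).1 hu).fst_mem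
  let e : G ≃g (H 0).coe :=
    { toFun := fun v => ⟨v, hv v⟩
      invFun := fun v => v.1
      left_inv := fun v => rfl
      right_inv := fun v => rfl
      map_rel_iff' := fun {a b} => (hadj a b).symm }
  exact e.isTree_iff.2 (h2 0)

theorem tau'_le_of_partition {V : Type} (G : SimpleGraph V) {k : ℕ} (h : TreePartition G k) :
    tau' G ≤ k := Nat.sInf_le h

theorem tau'_le {n : ℕ} (G : SimpleGraph (Fin n)) (hG : G.Connected) : tau' G ≤ (n + 1) / 2 := by
  obtain ⟨k, hk, h⟩ := partition_bound n (Fin n) G (by simp) hG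
  exact (tau'_le_of_partition G h).trans hk

theorem tau'_le_one {V : Type} (G : SimpleGraph V) (hG : G.IsTree) : tau' G ≤ 1 := by
  refine tau'_le_of_partition G ⟨fun _ => 0, fun i => ?_⟩
  have h1 : {v : V | (0 : Fin 1) = i} = Set.univ := by
    rw [Set.eq_univ_iff_forall]
    intro v
    exact Subsingleton.elim _ _
  rw [h1]
  exact (induceUnivIso G).isTree_iff.2 hG

/-! ### Triangles sharing a vertex -/

/-- The vertex `0` is joined to all other vertices, and `2 j + 1` to `2 j + 2`. -/
def friend (n : ℕ) : SimpleGraph (Fin n) :=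
  SimpleGraph.fromRel (fun x y => x.val = 0 ∨ (x.val % 2 = 1 ∧ y.val = x.val + 1))

theorem friend_adj {n : ℕ} (x y : Fin n) : (friend n).Adj x y ↔ x.val ≠ y.val ∧
    (x.val = 0 ∨ y.val = 0 ∨ (x.val % 2 = 1 ∧ y.val = x.val + 1) ∨
      (y.val % 2 = 1 ∧ x.val = y.val + 1)) := by
  rw [friend, SimpleGraph.fromRel_adj, ne_eq, Fin.ext_iff]
  tauto

theorem friend_connected (n : ℕ) (hn : 1 ≤ n) : (friend n).Connected := by
  have h : ∀ v : Fin n, (friend n).Reachable v ⟨0, hn⟩ := by
    intro v
    by_cases hv : v.val = 0
    · have : v = ⟨0, hn⟩ := Fin.ext hv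
      rw [this]
    · refine Adj.reachable ?_
      rw [friend_adj]
      exact ⟨hv, Or.inr (Or.inl rfl)⟩
  have : Nonempty (Fin n) := ⟨⟨0, hn⟩⟩
  exact Connected.mk fun u v => (h u).trans (h v).symm

theorem friend_decomposition (n : ℕ) (hn : 3 ≤ n) : TreeDecomposition (friend n) 2 := by
  let z : Fin n := ⟨0, by omega⟩
  let H1 : (friend n).Subgraph :=
    { verts := Set.univ
      Adj := fun x y => (x.val = 0 ∧ y.val % 2 = 1) ∨ (y.val = 0 ∧ x.val % 2 = 1) ∨
        (x.val % 2 = 1 ∧ y.val = x.val + 1) ∨ (y.val % 2 = 1 ∧ x.val = y.val + 1)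
      adj_sub := by
        intro x y h
        rw [friend_adj]
        omega
      edge_vert := fun _ => Set.mem_univ _
      symm := ⟨by
        intro x y h
        omega⟩ }
  let H2 : (friend n).Subgraph :=
    { verts := {x | x.val % 2 = 0}
      Adj := fun x y => x.val ≠ y.val ∧ ((x.val = 0 ∧ y.val % 2 = 0) ∨ (y.val = 0 ∧ x.val % 2 = 0))
      adj_sub := by
        intro x y h
        rw [friend_adj]
        omega
      edge_vert := by
        intro x y h
        show x.val % 2 = 0
        omega
      symm := ⟨by
        intro x y h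
        omega⟩ }
  have t1 : H1.coe.IsTree := by
    refine subgraph_tree H1 z (Set.mem_univ _)
      (fun v => if v.val % 2 = 1 then z else ⟨v.val - 1, by omega⟩)
      (fun v => if v.val = 0 then 0 else if v.val % 2 = 1 then 1 else 2) ?_ ?_
    · intro v _ hv
      have hv0 : v.val ≠ 0 := fun h => hv (Fin.ext h)
      refine ⟨Set.mem_univ _, ?_⟩
      by_cases h : v.val % 2 = 1
      · simp [h, z, hv0]
      · have h1 : (v.val - 1) % 2 = 1 := by omega
        have h2 : v.val - 1 ≠ 0 := by omega
        simp [h, hv0, h1, h2]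
    · intro u v _ _
      show (_ ∨ _) ↔ _
      have hz : ∀ w : Fin n, w ≠ z ↔ w.val ≠ 0 := by
        intro w
        rw [ne_eq, Fin.ext_iff]
      have hpar : ∀ u v : Fin n, ((if u.val % 2 = 1 then z else ⟨u.val - 1, by omega⟩) = v) ↔
          (u.val % 2 = 1 ∧ v.val = 0) ∨ (u.val % 2 = 0 ∧ v.val = u.val - 1) := by
        intro u v
        split_ifs with h
        · rw [Fin.ext_iff]
          show 0 = v.val ↔ _
          omega
        · rw [Fin.ext_iff]
          show u.val - 1 = v.val ↔ _
          omega
      rw [hz, hz, hpar, hpar]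
      omega
  have t2 : H2.coe.IsTree := by
    refine subgraph_tree H2 z (by show 0 % 2 = 0; rfl) (fun _ => z)
      (fun v => if v.val = 0 then 0 else 1) ?_ ?_
    · intro v _ hv
      have hv0 : v.val ≠ 0 := fun h => hv (Fin.ext h)
      refine ⟨by show 0 % 2 = 0; rfl, ?_⟩
      simp [z, hv0]
    · intro u v hu hv
      have hu' : u.val % 2 = 0 := hu
      have hv' : v.val % 2 = 0 := hv
      show (_ ∧ (_ ∨ _)) ↔ _
      have hz : ∀ w : Fin n, w ≠ z ↔ w.val ≠ 0 := by
        intro w
        rw [ne_eq, Fin.ext_iff]
      have hz' : ∀ w : Fin n, z = w ↔ 0 = w.val := by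
        intro w
        rw [Fin.ext_iff]
      rw [hz, hz, hz', hz']
      omega
  refine ⟨![H1, H2], ?_, ?_, ?_⟩
  · intro i
    fin_cases i
    · exact t1
    · exact t2
  · have hd : Disjoint H1.edgeSet H2.edgeSet := by
      rw [Set.disjoint_left]
      intro e
      induction e using Sym2.ind with
      | _ u v =>
        rw [Subgraph.mem_edgeSet, Subgraph.mem_edgeSet]
        show (_ ∨ _) → (_ ∧ (_ ∨ _)) → False
        intro h1 h2
        omega
    intro i j hij
    fin_cases i <;> fin_cases j
    · exact absurd rfl hij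
    · exact hd
    · exact hd.symm
    · exact absurd rfl hij
  · ext e
    induction e using Sym2.ind with
    | _ u v =>
      rw [Set.mem_iUnion, Fin.exists_fin_two]
      show (s(u, v) ∈ H1.edgeSet ∨ s(u, v) ∈ H2.edgeSet) ↔ _
      rw [Subgraph.mem_edgeSet, Subgraph.mem_edgeSet, mem_edgeSet, friend_adj]
      show ((_ ∨ _) ∨ (_ ∧ (_ ∨ _))) ↔ _
      omega

theorem friend_partition (n k : ℕ) (hn : 3 ≤ n) (h : TreePartition (friend n) k) :
    (n + 1) / 2 ≤ k := by
  classical
  obtain ⟨c, hc⟩ := h
  let z : Fin n := ⟨0, by omega⟩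
  have hex : ∀ j : Fin ((n - 1) / 2), ∃ a : Fin n, (a.val - 1) / 2 = j.val ∧ a.val ≠ 0 ∧
      c a ≠ c z := by
    intro j
    by_contra hcon
    push Not at hcon
    have hj := j.2
    let a : Fin n := ⟨2 * j.val + 1, by omega⟩
    let b : Fin n := ⟨2 * j.val + 2, by omega⟩
    have h1 : c a = c z := hcon a (by simp [a]) (by simp [a])
    have h2 : c b = c z := hcon b (by simp only [b]; omega) (by simp [b])
    have ht := (hc (c z)).isAcyclic
    have e1 : (friend n).Adj z a := by
      rw [friend_adj]
      exact ⟨by simp [z, a], Or.inl rfl⟩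
    have e2 : (friend n).Adj z b := by
      rw [friend_adj]
      exact ⟨by simp [z, b], Or.inl rfl⟩
    have e3 : (friend n).Adj a b := by
      rw [friend_adj]
      refine ⟨by simp [a, b], Or.inr (Or.inr (Or.inl ⟨?_, ?_⟩))⟩
      · simp only [a]; omega
      · simp only [a, b]
    exact no_triangle ht (a := ⟨z, rfl⟩) (b := ⟨a, h1⟩) (c := ⟨b, h2⟩) e1 e3 e2
  choose a ha1 ha0 ha2 using hex
  have hinj : Function.Injective (fun o : Option (Fin ((n - 1) / 2)) =>
      match o with
      | none => c z
      | some j => c (a j)) := by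
    intro o o' ho
    match o, o' with
    | none, none => rfl
    | none, some j => exact absurd ho.symm (ha2 j)
    | some j, none => exact absurd ho (ha2 j)
    | some j, some l =>
      have ho' : c (a j) = c (a l) := ho
      have hr := (hc (c (a l))).connected.preconnected ⟨a j, ho'⟩ ⟨a l, rfl⟩
      have key : ∀ (u v : {v | c v = c (a l)}), ((friend n).induce {v | c v = c (a l)}).Reachable u v →
          (u.1.val - 1) / 2 = (v.1.val - 1) / 2 := by
        rintro u v ⟨w⟩
        induction w with
        | nil => rfl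
        | @cons u v w h _ ih =>
          rw [← ih]
          have hu : u.1.val ≠ 0 := by
            intro h0
            have : u.1 = z := Fin.ext h0
            have h5 := u.2
            simp only [Set.mem_ofPred_eq] at h5
            rw [this] at h5
            exact ha2 l h5.symm
          have hv : v.1.val ≠ 0 := by
            intro h0
            have : v.1 = z := Fin.ext h0
            have h5 := v.2
            simp only [Set.mem_ofPred_eq] at h5
            rw [this] at h5
            exact ha2 l h5.symm
          rw [induce_adj, friend_adj] at h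
          omega
      have h6 := key _ _ hr
      simp only [ha1] at h6
      rw [Fin.ext h6]
  have h7 := Fintype.card_le_of_injective _ hinj
  simp only [Fintype.card_option, Fintype.card_fin] at h7
  omega

theorem tau'_friend (n : ℕ) (hn : 3 ≤ n) : tau' (friend n) = (n + 1) / 2 := by
  have hc := friend_connected n (by omega)
  apply le_antisymm (tau'_le _ hc)
  obtain ⟨k, -, h⟩ := partition_bound n (Fin n) (friend n) (by simp) hc
  exact friend_partition n _ hn (Nat.sInf_mem (s := {k | TreePartition (friend n) k}) ⟨k, h⟩)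

theorem friend_ne_bot (n : ℕ) (hn : 3 ≤ n) : friend n ≠ ⊥ := by
  intro h
  have : (friend n).Adj ⟨0, by omega⟩ ⟨1, by omega⟩ := by
    rw [friend_adj]
    simp
  rw [h] at this
  exact this

theorem tau_friend (n : ℕ) (hn : 3 ≤ n) : tau (friend n) = 2 := by
  have h1 : tau (friend n) ≤ 2 := Nat.sInf_le (friend_decomposition n hn)
  have h2 := tau_ne_zero _ (friend_ne_bot n hn)
  have h3 : tau (friend n) ≠ 1 := by
    intro h
    have h4 := isTree_of_tau_eq_one _ (friend_connected n (by omega)) (friend_ne_bot n hn) h
    have h5 := tau'_le_one _ h4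
    rw [tau'_friend n hn] at h5
    omega
  omega

/-! ### The maximum -/

theorem isGreatest_ratios (n : ℕ) (hn : 3 ≤ n) :
    IsGreatest (ratios n) ((((n + 1) / 2 : ℕ) : ℝ) / (2 * n)) := by
  constructor
  · refine ⟨friend n, friend_connected n (by omega), friend_ne_bot n hn, ?_⟩
    rw [tau'_friend n hn, tau_friend n hn]
    norm_num
  · rintro x ⟨G, hG, hG', rfl⟩
    have hn0 : (0 : ℝ) < n := by
      have : 0 < n := by omega
      exact_mod_cast this
    have h0 := tau_ne_zero G hG'
    rcases Nat.lt_or_ge (tau G) 2 with h | h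
    · have h1 : tau G = 1 := by omega
      have h2 := tau'_le_one G (isTree_of_tau_eq_one G hG hG' h1)
      rw [h1]
      have h3 : (tau' G : ℝ) ≤ 1 := by exact_mod_cast h2
      have h4 : (2 : ℝ) ≤ (((n + 1) / 2 : ℕ) : ℝ) := by
        have : 2 ≤ (n + 1) / 2 := by omega
        exact_mod_cast this
      rw [div_le_div_iff₀ (by simpa using hn0) (by linarith)]
      push_cast at *
      nlinarith
    · have h1 := tau'_le G hG
      have h3 : (tau' G : ℝ) ≤ (((n + 1) / 2 : ℕ) : ℝ) := by exact_mod_cast h1
      have h4 : (2 : ℝ) ≤ (tau G : ℝ) := by exact_mod_cast h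
      apply div_le_div₀ (by positivity) h3 (by linarith)
      exact mul_le_mul_of_nonneg_right h4 hn0.le

/-- **Theorem.** For every `n ≥ 3` the maximum of `τ'(G) / (τ(G) n)` over the connected graphs `G`
with `n` vertices (and at least one edge) is `⌈n/2⌉ / (2 n)`, and the limit superior `c₂` of these
maxima is `1/4` (it is even the limit). -/
theorem result :
    (∀ n : ℕ, 3 ≤ n → IsGreatest (ratios n) ((((n + 1) / 2 : ℕ) : ℝ) / (2 * n))) ∧
    Filter.limsup (fun n : ℕ => sSup (ratios n)) Filter.atTop = 1 / 4 ∧
    Filter.Tendsto (fun n : ℕ => sSup (ratios n)) Filter.atTop (nhds (1 / 4)) := by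
  have h1 : Filter.Tendsto (fun n : ℕ => sSup (ratios n)) Filter.atTop (nhds (1 / 4)) := by
    have hlim : Filter.Tendsto (fun n : ℕ => (1 / 4 : ℝ) + (1 / 4) * (n : ℝ)⁻¹) Filter.atTop
        (nhds (1 / 4 + (1 / 4) * 0)) :=
      (tendsto_const_nhds).add (tendsto_inv_atTop_nhds_zero_nat.const_mul _)
    rw [mul_zero, add_zero] at hlim
    refine tendsto_of_tendsto_of_tendsto_of_le_of_le' tendsto_const_nhds hlim ?_ ?_
    · filter_upwards [Filter.eventually_ge_atTop 3] with n hn
      rw [(isGreatest_ratios n hn).csSup_eq]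
      have hn0 : (0 : ℝ) < n := by
        have : 0 < n := by omega
        exact_mod_cast this
      have h2 : (n : ℝ) ≤ 2 * (((n + 1) / 2 : ℕ) : ℝ) := by
        have : n ≤ 2 * ((n + 1) / 2) := by omega
        exact_mod_cast this
      rw [le_div_iff₀ (by linarith)]
      linarith
    · filter_upwards [Filter.eventually_ge_atTop 3] with n hn
      rw [(isGreatest_ratios n hn).csSup_eq]
      have hn0 : (0 : ℝ) < n := by
        have : 0 < n := by omega
        exact_mod_cast this
      have h2 : 2 * (((n + 1) / 2 : ℕ) : ℝ) ≤ (n : ℝ) + 1 := by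
        have : 2 * ((n + 1) / 2) ≤ n + 1 := by omega
        exact_mod_cast this
      rw [div_le_iff₀ (by linarith)]
      have h3 : (1 / 4 + 1 / 4 * (n : ℝ)⁻¹) * (2 * n) = ((n : ℝ) + 1) / 2 := by
        field_simp
        ring
      rw [h3]
      linarith
  exact ⟨isGreatest_ratios, h1.limsup_eq, h1⟩

end Pool.Agent.Results.MP_8bd6c4_co.QuarterConstant
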